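import Pool.Agent.Helper91.SY.Goals

/-!
# Packet CM of project SY (helper91): commuting flows
-/

set_option autoImplicit false

open Set Filter Topology
open scoped ContDiff

namespace Pool.Agent.Helper22.SY

open Pool.Agent.Helper91.SY

section
variable {E : Type} [NormedAddCommGroup E] [NormedSpace ℝ E]

theorem anti {B : E → E →L[ℝ] E →L[ℝ] ℝ} (hB : Symp B) (x u v : E) : B x u v = - B x v u := by
  have h := hB.alt x (u + v)
  simp only [map_add, add_apply, hB.alt x u, hB.alt x v, zero_add,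
    add_zero] at h
  linarith

theorem flow_smooth {X : E → E} {Φ : ℝ → E → E} (h : Flow X Φ) (s : ℝ) :
    ContDiff ℝ ∞ (Φ s) := by
  have h1 : ContDiff ℝ ∞ (fun x : E => (s, x)) := contDiff_const.prodMk contDiff_id
  exact h.smooth.comp h1

theorem lip_of_const [FiniteDimensional ℝ E] {X : E → E} {R : ℝ} {e : E}
    (hX : ContDiff ℝ ∞ X) (hR : ∀ x, R ≤ ‖x‖ → X x = e) :
    ∃ K : NNReal, LipschitzWith K X := by
  have hd : Differentiable ℝ X := hX.differentiable (by simp)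
  have hc : Continuous (fderiv ℝ X) := hX.continuous_fderiv (by simp)
  obtain ⟨C, hC⟩ := (isCompact_closedBall (0 : E) R).exists_bound_of_continuousOn
    (f := fderiv ℝ X) hc.continuousOn
  refine ⟨Real.toNNReal (max C 0), lipschitzWith_of_nnnorm_fderiv_le hd fun x => ?_⟩
  rw [← NNReal.coe_le_coe, coe_nnnorm, Real.coe_toNNReal _ (le_max_right _ _)]
  by_cases hx : ‖x‖ ≤ R
  · exact (hC x (by simpa using hx)).trans (le_max_left _ _)
  · push Not at hx
    have h1 : X =ᶠ[𝓝 x] fun _ => e := by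
      have h2 : {y : E | R < ‖y‖} ∈ 𝓝 x :=
        (isOpen_lt continuous_const continuous_norm).mem_nhds hx
      filter_upwards [h2] with y hy using hR y hy.le
    rw [h1.fderiv_eq, fderiv_fun_const]
    simp

end

/-- Packet CM. -/
theorem cm_ (hFP : StmtFP) : StmtCM := by
  intro E _ _ _ B f₁ f₂ X₁ X₂ Φ₁ Φ₂ R e₂ c hB hf₁ hf₂ hX₁ hX₂ hH₁ hH₂ hF₁ hF₂ hR hc s t x
  have hP : ∀ s, Pull (Φ₁ s) B B := fun s => (hFP E B f₁ X₁ Φ₁ hB hf₁ hX₁ hH₁ hF₁ s).1
  have hd₂ : Differentiable ℝ f₂ := hf₂.differentiable (by simp)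
  have hdΦ : ∀ s, Differentiable ℝ (Φ₁ s) := fun s =>
    (flow_smooth hF₁ s).differentiable (by simp)
  -- step 1
  have h1 : ∀ s x, f₂ (Φ₁ s x) = f₂ x - c * s := by
    intro s x
    have hder : ∀ r, HasDerivAt (fun r => f₂ (Φ₁ r x) + c * r) 0 r := by
      intro r
      have a1 : HasDerivAt (fun r => f₂ (Φ₁ r x)) (fderiv ℝ f₂ (Φ₁ r x) (X₁ (Φ₁ r x))) r :=
        (hd₂ (Φ₁ r x)).hasFDerivAt.comp_hasDerivAt r (hF₁.deriv r x)
      have a2 : HasDerivAt (fun r : ℝ => c * r) (c * 1) r := (hasDerivAt_id r).const_mul c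
      have a3 := a1.add a2
      have a4 : fderiv ℝ f₂ (Φ₁ r x) (X₁ (Φ₁ r x)) + c * 1 = 0 := by
        rw [← hH₂ (Φ₁ r x) (X₁ (Φ₁ r x)), anti hB, hc]
        ring
      rw [a4] at a3
      exact a3
    have hconst := is_const_of_deriv_eq_zero (f := fun r => f₂ (Φ₁ r x) + c * r)
      (fun r => (hder r).differentiableAt) (fun r => (hder r).deriv) s 0
    simp only [hF₁.zero, mul_zero, add_zero] at hconst
    linarith
  -- step 2
  have h2 : ∀ s x w, fderiv ℝ f₂ (Φ₁ s x) (fderiv ℝ (Φ₁ s) x w) = fderiv ℝ f₂ x w := by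
    intro s x w
    have a1 : (fun x => f₂ (Φ₁ s x)) = fun x => f₂ x - c * s := funext fun x => h1 s x
    have a2 : HasFDerivAt (fun x => f₂ (Φ₁ s x))
        ((fderiv ℝ f₂ (Φ₁ s x)).comp (fderiv ℝ (Φ₁ s) x)) x :=
      (hd₂ (Φ₁ s x)).hasFDerivAt.comp x (hdΦ s x).hasFDerivAt
    rw [a1] at a2
    have a3 : HasFDerivAt (fun x => f₂ x - c * s) (fderiv ℝ f₂ x) x :=
      (hd₂ x).hasFDerivAt.sub_const _
    have a4 := a2.unique a3
    have a5 := congrArg (fun L : E →L[ℝ] ℝ => L w) a4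
    simpa using a5
  -- step 3
  have h3 : ∀ s x, fderiv ℝ (Φ₁ s) x (X₂ x) = X₂ (Φ₁ s x) := by
    intro s x
    have hinj : Function.Injective (fderiv ℝ (Φ₁ s) x) := by
      rw [injective_iff_map_eq_zero]
      intro u hu
      apply hB.nondeg x u
      intro v
      rw [← hP s x u v, hu]
      simp
    have hsurj : Function.Surjective (fderiv ℝ (Φ₁ s) x) :=
      LinearMap.surjective_of_injective (f := (fderiv ℝ (Φ₁ s) x : E →ₗ[ℝ] E)) hinj
    have a1 : ∀ v, B (Φ₁ s x) (fderiv ℝ (Φ₁ s) x (X₂ x) - X₂ (Φ₁ s x)) v = 0 := by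
      intro v
      obtain ⟨w, rfl⟩ := hsurj v
      rw [map_sub, sub_apply, hP s x (X₂ x) w, hH₂ x w, hH₂ (Φ₁ s x), h2]
      ring
    exact sub_eq_zero.1 (hB.nondeg _ _ a1)
  -- step 4
  obtain ⟨K, hK⟩ := lip_of_const hX₂ hR
  have hu : (fun t => Φ₁ s (Φ₂ t x)) = fun t => Φ₂ t (Φ₁ s x) := by
    apply ODE_solution_unique_univ (v := fun _ => X₂) (s := fun _ => univ) (K := K) (t₀ := 0)
    · intro t
      exact hK.lipschitzOnWith
    · intro t
      refine ⟨?_, mem_univ _⟩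
      have a1 : HasDerivAt (fun t => Φ₁ s (Φ₂ t x))
          (fderiv ℝ (Φ₁ s) (Φ₂ t x) (X₂ (Φ₂ t x))) t :=
        (hdΦ s (Φ₂ t x)).hasFDerivAt.comp_hasDerivAt t (hF₂.deriv t x)
      rw [h3] at a1
      exact a1
    · intro t
      exact ⟨hF₂.deriv t (Φ₁ s x), mem_univ _⟩
    · simp only [hF₂.zero]
  exact congrFun hu t

end Pool.Agent.Helper22.SY
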